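import Pool.Agent.J6H9.EV.Stm

/-!
# Project EV (helper9), module EV-CNT: counting (helper63)
-/

set_option autoImplicit false

namespace Pool.Agent.J6H63.EV

open Filter Topology Pool.Agent.J6H9.EU Pool.Agent.J6H9.EV

theorem aux (d : ℕ → ℕ) (K : ℕ) (hpos : ∀ n, 0 < d n) (hlim : Tendsto d atTop atTop)
    (hK : ∀ s : ℕ, {n | s ≤ d n ∧ d n < 2 * s}.ncard ≤ K) :
    ∀ v N : ℕ, ∑ i ∈ (Finset.range N).filter (fun i => d i ≤ v), d i ≤ 2 * K * v := by
  intro v
  induction v using Nat.strong_induction_on with
  | _ v ih =>
    intro N
    rcases Nat.eq_zero_or_pos v with rfl | hv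
    · have : (Finset.range N).filter (fun i => d i ≤ 0) = ∅ := by
        rw [Finset.filter_eq_empty_iff]
        intro i _ h
        have := hpos i
        omega
      rw [this]
      simp
    · have hw := ih (v / 2) (Nat.div_lt_self hv (by norm_num)) N
      rw [← Finset.sum_filter_add_sum_filter_not _ (fun i => d i ≤ v / 2)]
      have h1 : ((Finset.range N).filter (fun i => d i ≤ v)).filter (fun i => d i ≤ v / 2) =
          (Finset.range N).filter (fun i => d i ≤ v / 2) := by
        rw [Finset.filter_filter]
        refine Finset.filter_congr fun i _ => ?_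
        omega
      have h2 : ∑ i ∈ ((Finset.range N).filter (fun i => d i ≤ v)).filter
          (fun i => ¬ d i ≤ v / 2), d i ≤ K * v := by
        have hfin : {n | v / 2 + 1 ≤ d n ∧ d n < 2 * (v / 2 + 1)}.Finite := by
          obtain ⟨N0, hN0⟩ := (hlim.eventually_ge_atTop (2 * (v / 2 + 1))).exists_forall_of_atTop
          refine (Set.finite_Iio N0).subset ?_
          rintro n ⟨-, h4⟩
          rw [Set.mem_Iio]
          by_contra h5
          have := hN0 n (by omega)
          omega
        have hsub : ((((Finset.range N).filter (fun i => d i ≤ v)).filter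
            (fun i => ¬ d i ≤ v / 2) : Finset ℕ) : Set ℕ) ⊆
            {n | v / 2 + 1 ≤ d n ∧ d n < 2 * (v / 2 + 1)} := by
          intro i hi
          rw [Finset.mem_coe, Finset.mem_filter, Finset.mem_filter] at hi
          have h3 := hi.1.2
          have h4 := hi.2
          constructor <;> omega
        have hcard : (((Finset.range N).filter (fun i => d i ≤ v)).filter
            (fun i => ¬ d i ≤ v / 2)).card ≤ K := by
          rw [← Set.ncard_coe_finset]
          exact (Set.ncard_le_ncard hsub hfin).trans (hK _)
        refine (Finset.sum_le_card_nsmul _ _ v ?_).trans ?_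
        · intro i hi
          rw [Finset.mem_filter, Finset.mem_filter] at hi
          exact hi.1.2
        · rw [smul_eq_mul]
          exact Nat.mul_le_mul_right _ hcard
      rw [h1]
      have h3 : 2 * K * (v / 2) ≤ K * v := by
        have : 2 * (v / 2) ≤ v := by omega
        calc 2 * K * (v / 2) = K * (2 * (v / 2)) := by ring
          _ ≤ K * v := Nat.mul_le_mul_left _ this
      calc _ ≤ 2 * K * (v / 2) + K * v := Nat.add_le_add hw h2
        _ ≤ K * v + K * v := Nat.add_le_add_right h3 _
        _ = 2 * K * v := by ring

theorem main : Pool.Agent.J6H9.EV.S_CNT := by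
  intro d K hpos hmono hlim hK n
  have h := aux d K hpos hlim hK (d n) (n + 1)
  have h1 : (Finset.range (n + 1)).filter (fun i => d i ≤ d n) = Finset.range (n + 1) := by
    rw [Finset.filter_eq_self]
    intro i hi
    exact hmono (by have := Finset.mem_range.1 hi; omega)
  rw [h1] at h
  exact h

end Pool.Agent.J6H63.EV
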